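import Mathlib
import Pool.Agent.H257R3.SI.Stubs

open Pool.Agent.H257R3.SI Finset

namespace Pool.Agent.H874R3

theorem wt_nonneg {V : Type} [Fintype V] {ρ : ℝ} (h0 : 0 ≤ ρ) (h1 : ρ ≤ 1) (F : V → Bool) :
    0 ≤ wt ρ F := by
  unfold wt
  refine Finset.prod_nonneg fun v _ => ?_
  split
  · exact h0
  · linarith

theorem Ex_mono {V : Type} [Fintype V] [DecidableEq V] {ρ : ℝ} (h0 : 0 ≤ ρ) (h1 : ρ ≤ 1)
    {g h : (V → Bool) → ℝ} (hgh : ∀ F, g F ≤ h F) : Ex ρ g ≤ Ex ρ h := by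
  unfold Ex
  exact Finset.sum_le_sum fun F _ => mul_le_mul_of_nonneg_left (hgh F) (wt_nonneg h0 h1 F)

/-- the matching -/
def Mt (m K : ℕ) (i j : Fin m) : Finset (Vx m K × Vx m K) :=
  Finset.univ.image fun u : Fin K => ((Sum.inl (i, u) : Vx m K), (Sum.inr (j, u) : Vx m K))

theorem Mt_inj (m K : ℕ) (i j : Fin m) : Function.Injective
    (fun u : Fin K => ((Sum.inl (i, u) : Vx m K), (Sum.inr (j, u) : Vx m K))) := by
  intro u v h
  simpa using h

theorem Mt_card (m K : ℕ) (i j : Fin m) : (Mt m K i j).card = K := by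
  unfold Mt
  rw [Finset.card_image_of_injective _ (Mt_inj m K i j)]
  simp

theorem Mt_prod (m K : ℕ) (i j : Fin m) (F : Vx m K → Bool) :
    ∏ p ∈ Mt m K i j, (1 + (1 : ℝ) * (if F p.1 = true ∧ F p.2 = true then 1 else 0)) =
      2 ^ (Finset.univ.filter fun u => F (.inl (i, u)) = true ∧ F (.inr (j, u)) = true).card := by
  unfold Mt
  rw [Finset.prod_image (fun u _ v _ h => Mt_inj m K i j h)]
  have : ∀ u : Fin K, (1 + (1 : ℝ) * (if F (Sum.inl (i, u)) = true ∧ F (Sum.inr (j, u)) = true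
      then 1 else 0)) = if F (Sum.inl (i, u)) = true ∧ F (Sum.inr (j, u)) = true then 2 else 1 := by
    intro u
    split <;> norm_num
  simp only [this]
  rw [Finset.prod_ite, Finset.prod_const, Finset.prod_const_one, mul_one]

theorem a13 (h5 : St_A5) : St_A13 := by
  intro m K T ρ h0 h1
  have hE : ∀ i j : Fin m, Ex ρ (fun F : Vx m K → Bool =>
      ∏ p ∈ Mt m K i j, (1 + (1 : ℝ) * (if F p.1 = true ∧ F p.2 = true then 1 else 0))) =
      (1 + ρ ^ 2) ^ K := by
    intro i j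
    have := h5 (Vx m K) ρ 1 (Mt m K i j) ?_ ?_
    · rw [this, Mt_card]; ring
    · intro p hp q hq
      unfold Mt at hp hq
      rw [Finset.mem_image] at hp hq
      obtain ⟨u, _, rfl⟩ := hp
      obtain ⟨v, _, rfl⟩ := hq
      simp
    · intro p hp q hq hpq
      unfold Mt at hp hq
      rw [Finset.mem_image] at hp hq
      obtain ⟨u, _, rfl⟩ := hp
      obtain ⟨v, _, rfl⟩ := hq
      have huv : u ≠ v := fun h => hpq (by rw [h])
      simp [huv]
  have key : ∀ F : Vx m K → Bool, ({F : Vx m K → Bool | ∃ i j, T <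
      (Finset.univ.filter fun u => F (.inl (i, u)) = true ∧ F (.inr (j, u)) = true).card}.indicator
      (fun _ => (1 : ℝ))) F ≤ ∑ i : Fin m, ∑ j : Fin m, (1 / 2) ^ T *
      ∏ p ∈ Mt m K i j, (1 + (1 : ℝ) * (if F p.1 = true ∧ F p.2 = true then 1 else 0)) := by
    intro F
    have hnn : ∀ i j : Fin m, 0 ≤ (1 / 2 : ℝ) ^ T *
        ∏ p ∈ Mt m K i j, (1 + (1 : ℝ) * (if F p.1 = true ∧ F p.2 = true then 1 else 0)) := by
      intro i j
      rw [Mt_prod]; positivity
    by_cases hF : ∃ i j, T <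
        (Finset.univ.filter fun u => F (.inl (i, u)) = true ∧ F (.inr (j, u)) = true).card
    · rw [Set.indicator_of_mem (show F ∈ {F : Vx m K → Bool | ∃ i j, T <
        (Finset.univ.filter fun u => F (.inl (i, u)) = true ∧ F (.inr (j, u)) = true).card} from hF)]
      obtain ⟨i, j, hij⟩ := hF
      calc (1 : ℝ) ≤ (1 / 2 : ℝ) ^ T * ∏ p ∈ Mt m K i j,
            (1 + (1 : ℝ) * (if F p.1 = true ∧ F p.2 = true then 1 else 0)) := by
            rw [Mt_prod]
            have h2 : (2 : ℝ) ^ T ≤ 2 ^ (Finset.univ.filter fun u =>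
                F (.inl (i, u)) = true ∧ F (.inr (j, u)) = true).card :=
              pow_le_pow_right₀ (by norm_num) hij.le
            calc (1 : ℝ) = (1 / 2) ^ T * 2 ^ T := by rw [← mul_pow]; norm_num
              _ ≤ _ := mul_le_mul_of_nonneg_left h2 (by positivity)
        _ ≤ ∑ j : Fin m, (1 / 2 : ℝ) ^ T * ∏ p ∈ Mt m K i j,
            (1 + (1 : ℝ) * (if F p.1 = true ∧ F p.2 = true then 1 else 0)) :=
            Finset.single_le_sum (f := fun j => (1 / 2 : ℝ) ^ T * ∏ p ∈ Mt m K i j,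
              (1 + (1 : ℝ) * (if F p.1 = true ∧ F p.2 = true then 1 else 0)))
              (fun j _ => hnn i j) (Finset.mem_univ j)
        _ ≤ _ := Finset.single_le_sum (f := fun i => ∑ j : Fin m, (1 / 2 : ℝ) ^ T *
              ∏ p ∈ Mt m K i j, (1 + (1 : ℝ) * (if F p.1 = true ∧ F p.2 = true then 1 else 0)))
              (fun i _ => Finset.sum_nonneg fun j _ => hnn i j) (Finset.mem_univ i)
    · rw [Set.indicator_of_notMem (show F ∉ {F : Vx m K → Bool | ∃ i j, T <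
        (Finset.univ.filter fun u => F (.inl (i, u)) = true ∧ F (.inr (j, u)) = true).card} from hF)]
      exact Finset.sum_nonneg fun i _ => Finset.sum_nonneg fun j _ => hnn i j
  unfold Pr
  refine (Ex_mono h0 h1 key).trans ?_
  have hlin : Ex ρ (fun F : Vx m K → Bool => ∑ i : Fin m, ∑ j : Fin m, (1 / 2 : ℝ) ^ T *
      ∏ p ∈ Mt m K i j, (1 + (1 : ℝ) * (if F p.1 = true ∧ F p.2 = true then 1 else 0))) =
      ∑ i : Fin m, ∑ j : Fin m, (1 / 2 : ℝ) ^ T * (1 + ρ ^ 2) ^ K := by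
    have : ∀ i j : Fin m, (1 / 2 : ℝ) ^ T * (1 + ρ ^ 2) ^ K = ∑ F : Vx m K → Bool, wt ρ F *
        ((1 / 2 : ℝ) ^ T * ∏ p ∈ Mt m K i j,
          (1 + (1 : ℝ) * (if F p.1 = true ∧ F p.2 = true then 1 else 0))) := by
      intro i j
      rw [← hE i j]
      unfold Ex
      rw [Finset.mul_sum]
      refine Finset.sum_congr rfl fun F _ => by ring
    refine Eq.trans ?_ (Finset.sum_congr rfl fun i _ => Finset.sum_congr rfl fun j _ => this i j).symm
    unfold Ex
    simp only [Finset.mul_sum]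
    rw [Finset.sum_comm]
    exact Finset.sum_congr rfl fun i _ => Finset.sum_comm
  rw [hlin]
  simp only [Finset.sum_const, Finset.card_univ, Fintype.card_fin, nsmul_eq_mul]
  have hexp : (1 + ρ ^ 2) ^ K ≤ Real.exp (ρ ^ 2 * K) := by
    have : 1 + ρ ^ 2 ≤ Real.exp (ρ ^ 2) := by
      have := Real.add_one_le_exp (ρ ^ 2); linarith
    calc (1 + ρ ^ 2) ^ K ≤ Real.exp (ρ ^ 2) ^ K := pow_le_pow_left₀ (by positivity) this K
      _ = Real.exp (ρ ^ 2 * K) := by rw [← Real.exp_nat_mul]; ring_nf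
  calc (m : ℝ) * ((m : ℝ) * ((1 / 2) ^ T * (1 + ρ ^ 2) ^ K)) =
        (m : ℝ) ^ 2 * ((1 / 2) ^ T * (1 + ρ ^ 2) ^ K) := by ring
    _ ≤ (m : ℝ) ^ 2 * ((1 / 2) ^ T * Real.exp (ρ ^ 2 * K)) := by gcongr

end Pool.Agent.H874R3
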