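import Pool.Agent.H917R2.BP.Stm

/-!
Corners of von Neumann algebras are von Neumann algebras (task `cut` of helper917).
-/

set_option autoImplicit false

open scoped ComplexOrder InnerProductSpace ComplexConjugate Topology
open Filter

noncomputable section

namespace Pool.Agent.H874R3.BPcut

open H759R2.Kad H710R2.DP H917R2.Tr H917R2.BP

variable {H : Type} [NormedAddCommGroup H] [InnerProductSpace ℂ H] [CompleteSpace H]

/-- the range of a projection is a Hilbert space (copied from `H360R2.GN.exists_range`) -/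
theorem exists_range (z : H →L[ℂ] H) (hz : IsPr z) :
    ∃ (K : Type) (_ : NormedAddCommGroup K) (_ : InnerProductSpace ℂ K) (_ : CompleteSpace K)
      (io : K →L[ℂ] H),
      ContinuousLinearMap.adjoint io ∘L io = 1 ∧ io ∘L ContinuousLinearMap.adjoint io = z := by
  let R : Submodule ℂ H := (1 - z : H →L[ℂ] H).ker
  have mem_R : ∀ ξ : H, ξ ∈ R ↔ z ξ = ξ := by
    intro ξ
    show ξ ∈ (1 - z : H →L[ℂ] H).ker ↔ _
    rw [LinearMap.mem_ker]
    show ((1 : H →L[ℂ] H) - z) ξ = 0 ↔ z ξ = ξ
    rw [ContinuousLinearMap.sub_apply, sub_eq_zero]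
    exact eq_comm
  have hcl : IsClosed (R : Set H) := (1 - z : H →L[ℂ] H).isClosed_ker
  haveI : CompleteSpace R := hcl.completeSpace_coe
  refine ⟨R, inferInstance, inferInstance, inferInstance, R.subtypeL, ?_, ?_⟩
  · ext1 ξ
    apply ext_inner_left ℂ
    intro η
    show ⟪η, ContinuousLinearMap.adjoint R.subtypeL (R.subtypeL ξ)⟫_ℂ = ⟪η, ξ⟫_ℂ
    rw [ContinuousLinearMap.adjoint_inner_right]
    rfl
  · ext ξ
    have hzz : z (z ξ) = z ξ := congrArg (fun T : H →L[ℂ] H => T ξ) hz.2
    have hzm : z ξ ∈ R := (mem_R _).mpr hzz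
    have h1 : ContinuousLinearMap.adjoint R.subtypeL ξ = ⟨z ξ, hzm⟩ := by
      apply ext_inner_left ℂ
      intro η
      rw [ContinuousLinearMap.adjoint_inner_right]
      show ⟪(η : H), ξ⟫_ℂ = ⟪(η : H), z ξ⟫_ℂ
      have e2 : (η : H) = z (η : H) := ((mem_R _).mp η.2).symm
      have e3 : ⟪(η : H), z ξ⟫_ℂ = ⟪z (η : H), ξ⟫_ℂ := by
        have := ContinuousLinearMap.adjoint_inner_right z (η : H) ξ
        rw [← ContinuousLinearMap.star_eq_adjoint, hz.1] at this
        exact this
      rw [e3, ← e2]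
    show R.subtypeL (ContinuousLinearMap.adjoint R.subtypeL ξ) = z ξ
    rw [h1]
    rfl

/-- the commutant of a set of operators and their adjoints -/
def cen {K : Type} [NormedAddCommGroup K] [InnerProductSpace ℂ K] [CompleteSpace K]
    (S : Set (K →L[ℂ] K)) : VonNeumannAlgebra K where
  toStarSubalgebra := StarSubalgebra.centralizer ℂ S
  centralizer_centralizer' := by
    show Set.centralizer (Set.centralizer ((StarSubalgebra.centralizer ℂ S :
      StarSubalgebra ℂ (K →L[ℂ] K)) : Set (K →L[ℂ] K))) = ((StarSubalgebra.centralizer ℂ S :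
      StarSubalgebra ℂ (K →L[ℂ] K)) : Set (K →L[ℂ] K))
    rw [StarSubalgebra.coe_centralizer, Set.centralizer_centralizer_centralizer]

theorem mem_cen {K : Type} [NormedAddCommGroup K] [InnerProductSpace ℂ K] [CompleteSpace K]
    (S : Set (K →L[ℂ] K)) (y : K →L[ℂ] K) :
    y ∈ cen S ↔ ∀ g ∈ S, g * y = y * g ∧ star g * y = y * star g :=
  StarSubalgebra.mem_centralizer_iff (R := ℂ)

theorem t_cut : H917R2.BP.S_cut := by
  intro H _ _ _ M e he hp
  obtain ⟨K, i1, i2, i3, io, ha, hb⟩ := exists_range e hp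
  let S : Set (K →L[ℂ] K) :=
    {t | ∃ c ∈ M.commutant, t = ContinuousLinearMap.adjoint io ∘L c ∘L io}
  refine ⟨K, i1, i2, i3, cen S, io, ⟨ha, hb, fun y => ?_⟩⟩
  have hai : ∀ ξ : K, ContinuousLinearMap.adjoint io (io ξ) = ξ := fun ξ =>
    congrArg (fun T : K →L[ℂ] K => T ξ) ha
  have hia : ∀ ξ : H, io (ContinuousLinearMap.adjoint io ξ) = e ξ := fun ξ =>
    congrArg (fun T : H →L[ℂ] H => T ξ) hb
  have hce : ∀ c ∈ M.commutant, ∀ ξ : H, e (c ξ) = c (e ξ) := fun c hc ξ =>
    congrArg (fun T : H →L[ℂ] H => T ξ) (VonNeumannAlgebra.mem_commutant_iff.1 hc e he)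
  -- `e io = io` and `adjoint io ∘ e = adjoint io`
  have hei : ∀ ξ : K, e (io ξ) = io ξ := fun ξ => by rw [← hia, hai]
  have hie : ∀ ξ : H, ContinuousLinearMap.adjoint io (e ξ) = ContinuousLinearMap.adjoint io ξ :=
    fun ξ => by rw [← hia, hai]
  have hkey : (∀ c ∈ M.commutant, (ContinuousLinearMap.adjoint io ∘L c ∘L io) * y =
      y * (ContinuousLinearMap.adjoint io ∘L c ∘L io)) ↔
      ∀ c ∈ M.commutant, c * (io ∘L y ∘L ContinuousLinearMap.adjoint io) =
        (io ∘L y ∘L ContinuousLinearMap.adjoint io) * c := by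
    refine forall₂_congr fun c hc => ?_
    constructor
    · intro h
      have h' : ∀ ξ : K, ContinuousLinearMap.adjoint io (c (io (y ξ))) =
          y (ContinuousLinearMap.adjoint io (c (io ξ))) := fun ξ =>
        congrArg (fun T : K →L[ℂ] K => T ξ) h
      ext ξ
      show c (io (y (ContinuousLinearMap.adjoint io ξ))) =
        io (y (ContinuousLinearMap.adjoint io (c ξ)))
      have h2 := congrArg io (h' (ContinuousLinearMap.adjoint io ξ))
      rw [hia, hia, hce c hc, hei, ← hce c hc, hie] at h2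
      exact h2
    · intro h
      have h' : ∀ ξ : H, c (io (y (ContinuousLinearMap.adjoint io ξ))) =
          io (y (ContinuousLinearMap.adjoint io (c ξ))) := fun ξ =>
        congrArg (fun T : H →L[ℂ] H => T ξ) h
      ext ξ
      show ContinuousLinearMap.adjoint io (c (io (y ξ))) =
        y (ContinuousLinearMap.adjoint io (c (io ξ)))
      have h2 := congrArg (ContinuousLinearMap.adjoint io) (h' (io ξ))
      rw [hai, hai] at h2
      exact h2
  rw [mem_cen]
  have hM : io ∘L y ∘L ContinuousLinearMap.adjoint io ∈ M ↔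
      ∀ c ∈ M.commutant, c * (io ∘L y ∘L ContinuousLinearMap.adjoint io) =
        (io ∘L y ∘L ContinuousLinearMap.adjoint io) * c := by
    conv_lhs => rw [← VonNeumannAlgebra.commutant_commutant M]
    exact VonNeumannAlgebra.mem_commutant_iff
  rw [hM, ← hkey]
  constructor
  · intro h c hc
    exact (h _ ⟨c, hc, rfl⟩).1
  · rintro h g ⟨c, hc, rfl⟩
    refine ⟨h c hc, ?_⟩
    have hs : star (ContinuousLinearMap.adjoint io ∘L c ∘L io) =
        ContinuousLinearMap.adjoint io ∘L star c ∘L io := by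
      rw [ContinuousLinearMap.star_eq_adjoint, ContinuousLinearMap.star_eq_adjoint,
        ContinuousLinearMap.adjoint_comp, ContinuousLinearMap.adjoint_comp,
        ContinuousLinearMap.adjoint_adjoint]
      rfl
    rw [hs]
    exact h _ (star_mem hc)

end Pool.Agent.H874R3.BPcut
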