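import Mathlib
import Pool.Agent.H922R2.OPC.Stubs

/-! Task PRG of the project OPC: coefficients of a product of linear factors. -/

set_option autoImplicit false

open Pool.Agent.H922R2.OPC

namespace Pool.Agent.H874R3.OPC

theorem ge_sub {R : Type} [CommRing R] {u : ℤ} {g h : LaurentSeries R} (hg : Ge u g)
    (hh : Ge u h) : Ge u (g - h) := by
  intro i hi
  rw [HahnSeries.coeff_sub, hg i hi, hh i hi, sub_zero]

theorem ge_zero {R : Type} [CommRing R] (u : ℤ) : Ge u (0 : LaurentSeries R) := by
  intro i _
  rw [HahnSeries.coeff_zero]

theorem ge_neg {R : Type} [CommRing R] {u : ℤ} {g : LaurentSeries R} (hg : Ge u g) :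
    Ge u (-g) := by
  intro i hi
  rw [HahnSeries.coeff_neg, hg i hi, neg_zero]

theorem prg (k : Type) [Field k] : S_PRG k := by
  intro hM n s w
  have key : (∀ i < n, Ge w (s i)) →
      (∀ l ≤ n, Ge (((n : ℤ) - l) * w)
        ((∏ i ∈ Finset.range n, (Polynomial.X - Polynomial.C (s i))).coeff l)) ∧
      ∀ l, n < l → (∏ i ∈ Finset.range n, (Polynomial.X - Polynomial.C (s i))).coeff l = 0 := by
    induction n with
    | zero =>
      intro _
      constructor
      · intro l hl
        obtain rfl : l = 0 := by omega
        simp only [Finset.range_zero, Finset.prod_empty, Polynomial.coeff_one_zero]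
        intro i hi
        have hi' : i < 0 := by simpa using hi
        rw [HahnSeries.coeff_one, if_neg (ne_of_lt hi')]
      · intro l hl
        rw [Finset.range_zero, Finset.prod_empty, Polynomial.coeff_one, if_neg (by omega)]
    | succ n ih =>
      intro hs
      obtain ⟨h1, h2⟩ := ih (fun i hi => hs i (by omega))
      have hsn : Ge w (s n) := hs n (by omega)
      constructor
      · intro l hl
        rw [Finset.prod_range_succ]
        cases l with
        | zero =>
          have h3 := (hM (Polynomial k) _ _ _ _ (h1 0 (by omega)) hsn).1
          have h4 : (((n : ℤ) - ((0 : ℕ) : ℤ)) * w + w) =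
              ((((n + 1 : ℕ) : ℤ)) - ((0 : ℕ) : ℤ)) * w := by
            push_cast
            ring
          rw [h4] at h3
          have h5 := ge_neg h3
          rw [Polynomial.mul_coeff_zero, Polynomial.coeff_sub, Polynomial.coeff_X_zero,
            Polynomial.coeff_C_zero, zero_sub]
          have h6 : ∀ a b : L k, a * -b = -(a * b) := fun a b => mul_neg a b
          rw [h6]
          exact h5
        | succ m =>
          rw [Polynomial.coeff_mul_X_sub_C]
          have h4 : ((((n + 1 : ℕ) : ℤ)) - ((m + 1 : ℕ) : ℤ)) * w = ((n : ℤ) - (m : ℤ)) * w := by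
            push_cast
            ring
          rw [h4]
          apply ge_sub (h1 m (by omega))
          by_cases hm : m + 1 ≤ n
          · have h3 := (hM (Polynomial k) _ _ _ _ (h1 (m + 1) hm) hsn).1
            have h5 : (((n : ℤ) - ((m + 1 : ℕ) : ℤ)) * w + w) = ((n : ℤ) - (m : ℤ)) * w := by
              push_cast
              ring
            rw [h5] at h3
            exact h3
          · rw [h2 (m + 1) (by omega), zero_mul]
            exact ge_zero _
      · intro l hl
        rw [Finset.prod_range_succ]
        cases l with
        | zero => omega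
        | succ m =>
          rw [Polynomial.coeff_mul_X_sub_C, h2 m (by omega), h2 (m + 1) (by omega), zero_mul,
            sub_zero]
  intro hs
  exact (key hs).1

end Pool.Agent.H874R3.OPC
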